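import Pool.Agent.Helper36.TL.Eb
import Pool.Agent.Helper4.TL.Mom

/-!
# Project TL (MP_56afde), module TL-E

The Efron-Stein inequality for random subsets and the overlap bound.
-/

set_option autoImplicit false

namespace Pool.Agent.Helper84.TL

open Finset

section E

variable {α : Type} [DecidableEq α]

theorem efron_stein (X : Finset α) {τ : ℝ} (h0 : 0 ≤ τ) (h1 : τ ≤ 1) (f : Finset α → ℝ) :
    Eb X τ (fun A => f A ^ 2) ≤ Eb X τ f ^ 2 +
      τ * (1 - τ) * ∑ y ∈ X, Eb (X.erase y) τ (fun A => (f (insert y A) - f A) ^ 2) := by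
  induction X using Finset.induction_on generalizing f with
  | empty => simp [Eb]
  | insert x X hx ih =>
    have hIH := ih (fun A => τ * f (insert x A) + (1 - τ) * f A)
    have e1 : Eb (insert x X) τ f = Eb X τ (fun A => τ * f (insert x A) + (1 - τ) * f A) := by
      rw [Eb_insert hx, ← Eb_mul, ← Eb_mul, ← Eb_add]
    have e2 : Eb (insert x X) τ (fun A => f A ^ 2) =
        Eb X τ (fun A => (τ * f (insert x A) + (1 - τ) * f A) ^ 2) +
          τ * (1 - τ) * Eb X τ (fun A => (f (insert x A) - f A) ^ 2) := by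
      rw [Eb_insert hx, ← Eb_mul, ← Eb_mul, ← Eb_mul, ← Eb_add, ← Eb_add]
      apply Eb_congr
      intro A _
      ring
    have e3 : ∀ y ∈ X, Eb (X.erase y) τ (fun A =>
        ((τ * f (insert x (insert y A)) + (1 - τ) * f (insert y A)) -
          (τ * f (insert x A) + (1 - τ) * f A)) ^ 2) ≤
        Eb ((insert x X).erase y) τ (fun A => (f (insert y A) - f A) ^ 2) := by
      intro y hy
      have hne : x ≠ y := fun h => hx (h ▸ hy)
      have hxe : x ∉ X.erase y := fun h => hx (Finset.mem_of_mem_erase h)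
      rw [Finset.erase_insert_of_ne hne, Eb_insert hxe, ← Eb_mul, ← Eb_mul, ← Eb_add]
      apply Eb_mono h0 h1
      intro A _
      rw [Finset.insert_comm y x A]
      have h2 : 0 ≤ 1 - τ := by linarith
      have h3 : 0 ≤ τ * (1 - τ) := mul_nonneg h0 h2
      have h4 : 0 ≤ τ * (1 - τ) * ((f (insert x (insert y A)) - f (insert x A)) -
        (f (insert y A) - f A)) ^ 2 := mul_nonneg h3 (sq_nonneg _)
      nlinarith [h4]
    have e4 := Finset.sum_le_sum e3
    rw [Finset.sum_insert hx, Finset.erase_insert hx, e1, e2]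
    have h5 : 0 ≤ τ * (1 - τ) := mul_nonneg h0 (by linarith)
    have h6 := mul_le_mul_of_nonneg_left e4 h5
    rw [mul_add]
    linarith

/-- The square of a mean is at most the mean of the squares. -/
theorem Eb_sq_le (X : Finset α) {τ : ℝ} (h0 : 0 ≤ τ) (h1 : τ ≤ 1) (f : Finset α → ℝ) :
    Eb X τ f ^ 2 ≤ Eb X τ (fun A => f A ^ 2) := by
  set c : ℝ := Eb X τ f with hc
  have h : 0 ≤ Eb X τ (fun A => (f A ^ 2 + ((-(2 * c)) * f A)) + c ^ 2) := by
    have h2 : Eb X τ (fun _ => (0 : ℝ)) ≤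
        Eb X τ (fun A => (f A ^ 2 + ((-(2 * c)) * f A)) + c ^ 2) := by
      apply Eb_mono h0 h1
      intro A _
      nlinarith [sq_nonneg (f A - c)]
    rwa [Eb_const] at h2
  rw [Eb_add, Eb_add, Eb_mul, Eb_const, ← hc] at h
  nlinarith

theorem overlap {X P Q : Finset α} (hP : P ⊆ X) (hQ : Q ⊆ X) {m : ℕ} (hm : 1 ≤ m)
    (hP' : P.card = m) (hQ' : Q.card = m) {a : ℝ} (ha : 1 ≤ a) {τ : ℝ} (h0 : 0 < τ)
    (h1 : τ ≤ 1) :
    Eb X τ (fun A => 1 / ((a + ((A ∩ P).card : ℝ)) * (a + ((A ∩ Q).card : ℝ)))) ≤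
      Eb P τ (fun A => 1 / (a + (A.card : ℝ))) ^ 2 + 6 * ((P ∩ Q).card : ℝ) * τ / (m * τ) ^ 4 := by
  set O : Finset α := P ∩ Q with hO
  set P0 : Finset α := P \ Q with hP0
  set Q0 : Finset α := Q \ P with hQ0
  have hcard : P0.card = Q0.card := by
    have e1 := Finset.card_sdiff_add_card_inter P Q
    have e2 := Finset.card_sdiff_add_card_inter Q P
    rw [Finset.inter_comm Q P] at e2
    rw [← hP0, ← hO] at e1
    rw [← hQ0, ← hO] at e2
    omega
  have hOP : O ∪ P0 = P := by
    ext x; simp only [hO, hP0, Finset.mem_union, Finset.mem_inter, Finset.mem_sdiff]; tauto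
  have hdOP : Disjoint O P0 := by
    rw [Finset.disjoint_left]; intro x
    simp only [hO, hP0, Finset.mem_inter, Finset.mem_sdiff]; tauto
  have hdOPQ : Disjoint O (P0 ∪ Q0) := by
    rw [Finset.disjoint_left]; intro x
    simp only [hO, hP0, hQ0, Finset.mem_inter, Finset.mem_sdiff, Finset.mem_union]; tauto
  have hdPQ : Disjoint P0 Q0 := by
    rw [Finset.disjoint_left]; intro x
    simp only [hP0, hQ0, Finset.mem_sdiff]; tauto
  have hPQ : O ∪ (P0 ∪ Q0) = P ∪ Q := by
    ext x
    simp only [hO, hP0, hQ0, Finset.mem_union, Finset.mem_inter, Finset.mem_sdiff]; tauto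
  -- the common conditional expectation
  set F : Finset α → ℝ := fun B => Eb P0 τ (fun A => 1 / (a + ((B ∪ A).card : ℝ))) with hF
  -- Step 1: restrict to `P ∪ Q`
  have s1 : Eb X τ (fun A => 1 / ((a + ((A ∩ P).card : ℝ)) * (a + ((A ∩ Q).card : ℝ)))) =
      Eb (P ∪ Q) τ (fun A => 1 / ((a + ((A ∩ P).card : ℝ)) * (a + ((A ∩ Q).card : ℝ)))) := by
    rw [← Eb_inter (Finset.union_subset hP hQ) τ
      (fun A => 1 / ((a + ((A ∩ P).card : ℝ)) * (a + ((A ∩ Q).card : ℝ))))]
    apply Eb_congr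
    intro A _
    have e1 : A ∩ (P ∪ Q) ∩ P = A ∩ P := by
      ext x; simp only [Finset.mem_union, Finset.mem_inter]; tauto
    have e2 : A ∩ (P ∪ Q) ∩ Q = A ∩ Q := by
      ext x; simp only [Finset.mem_union, Finset.mem_inter]; tauto
    simp only [e1, e2]
  -- Step 2: condition on `O`
  have s2 : Eb (P ∪ Q) τ
      (fun A => 1 / ((a + ((A ∩ P).card : ℝ)) * (a + ((A ∩ Q).card : ℝ)))) =
      Eb O τ (fun B => F B ^ 2) := by
    rw [← hPQ, Eb_union hdOPQ]
    apply Eb_congr
    intro B hB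
    have e1 : Eb (P0 ∪ Q0) τ
        (fun D => 1 / ((a + (((B ∪ D) ∩ P).card : ℝ)) * (a + (((B ∪ D) ∩ Q).card : ℝ)))) =
        Eb (P0 ∪ Q0) τ (fun D => (fun D' : Finset α => 1 / (a + (B.card : ℝ) + (D'.card : ℝ)))
          (D ∩ P0) * (fun D' : Finset α => 1 / (a + (B.card : ℝ) + (D'.card : ℝ))) (D ∩ Q0)) := by
      apply Eb_congr
      intro D hD
      have c1 : (B ∪ D) ∩ P = B ∪ (D ∩ P0) := by
        ext x
        have hBx := @hB x
        have hDx := @hD x
        simp only [hO, hP0, hQ0, Finset.mem_union, Finset.mem_inter, Finset.mem_sdiff] at *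
        tauto
      have c2 : (B ∪ D) ∩ Q = B ∪ (D ∩ Q0) := by
        ext x
        have hBx := @hB x
        have hDx := @hD x
        simp only [hO, hP0, hQ0, Finset.mem_union, Finset.mem_inter, Finset.mem_sdiff] at *
        tauto
      have d1 : Disjoint B (D ∩ P0) := by
        rw [Finset.disjoint_left]; intro x hx
        have hBx := @hB x hx
        simp only [hO, hP0, Finset.mem_inter, Finset.mem_sdiff] at *
        tauto
      have d2 : Disjoint B (D ∩ Q0) := by
        rw [Finset.disjoint_left]; intro x hx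
        have hBx := @hB x hx
        simp only [hO, hQ0, Finset.mem_inter, Finset.mem_sdiff] at *
        tauto
      simp only [c1, c2, Finset.card_union_of_disjoint d1, Finset.card_union_of_disjoint d2,
        Nat.cast_add]
      rw [one_div_mul_one_div, ← add_assoc, ← add_assoc]
    rw [e1, Eb_indep Finset.subset_union_left Finset.subset_union_right hdPQ τ
      (fun D' : Finset α => 1 / (a + (B.card : ℝ) + (D'.card : ℝ)))
      (fun D' : Finset α => 1 / (a + (B.card : ℝ) + (D'.card : ℝ)))]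
    have e2 : Eb Q0 τ (fun D' : Finset α => 1 / (a + (B.card : ℝ) + (D'.card : ℝ))) =
        Eb P0 τ (fun D' : Finset α => 1 / (a + (B.card : ℝ) + (D'.card : ℝ))) := by
      rw [Eb_card Q0 τ (fun k => 1 / (a + (B.card : ℝ) + (k : ℝ))),
        Eb_card P0 τ (fun k => 1 / (a + (B.card : ℝ) + (k : ℝ))), hcard]
    have e3 : F B = Eb P0 τ (fun D' : Finset α => 1 / (a + (B.card : ℝ) + (D'.card : ℝ))) := by
      simp only [hF]
      apply Eb_congr
      intro D hD
      have d1 : Disjoint B D := by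
        rw [Finset.disjoint_left]; intro x hx hx'
        have hBx := @hB x hx
        have hDx := @hD x hx'
        simp only [hO, hP0, Finset.mem_inter, Finset.mem_sdiff] at *
        tauto
      rw [Finset.card_union_of_disjoint d1, Nat.cast_add, add_assoc]
    rw [e2, e3]
    ring
  rw [s1, s2]
  have s3 := efron_stein O h0.le h1 F
  have s4 : Eb O τ F = Eb P τ (fun A => 1 / (a + (A.card : ℝ))) := by
    conv_rhs => rw [← hOP, Eb_union hdOP]
  -- Step 5: the increments
  have s5 : ∀ y ∈ O, Eb (O.erase y) τ (fun B => (F (insert y B) - F B) ^ 2) ≤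
      6 / (m * τ) ^ 4 := by
    intro y hy
    have hyP : y ∈ P := (Finset.mem_inter.1 hy).1
    have hyQ : y ∈ Q := (Finset.mem_inter.1 hy).2
    have hdO' : Disjoint (O.erase y) P0 := Finset.disjoint_of_subset_left (Finset.erase_subset _ _) hdOP
    have hOy : O.erase y ∪ P0 = P.erase y := by
      ext x
      by_cases hxy : x = y
      · subst hxy
        simp [hP0, hyQ]
      · simp only [hO, hP0, Finset.mem_union, Finset.mem_inter, Finset.mem_sdiff,
          Finset.mem_erase]
        tauto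
    have t1 : Eb (O.erase y) τ (fun B => (F (insert y B) - F B) ^ 2) ≤
        Eb (O.erase y) τ (fun B => Eb P0 τ
          (fun A => 6 * (1 / (((B ∪ A).card + 1).ascFactorial 4 : ℝ)))) := by
      apply Eb_mono h0.le h1
      intro B hB
      have u1 : F (insert y B) - F B = Eb P0 τ (fun A => 1 / (a + ((insert y B ∪ A).card : ℝ)) +
          (-1) * (1 / (a + ((B ∪ A).card : ℝ)))) := by
        rw [Eb_add, Eb_mul]
        simp only [hF]
        ring
      rw [u1]
      refine le_trans (Eb_sq_le P0 h0.le h1 _) ?_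
      apply Eb_mono h0.le h1
      intro A hA
      have v1 : (insert y B ∪ A).card = (B ∪ A).card + 1 := by
        rw [Finset.insert_union, Finset.card_insert_of_notMem]
        intro h
        rcases Finset.mem_union.1 h with h | h
        · exact (Finset.mem_erase.1 (hB h)).1 rfl
        · exact (Finset.mem_sdiff.1 (hA h)).2 hyQ
      rw [v1]
      set b : ℕ := (B ∪ A).card with hb
      have hb0 : (0 : ℝ) ≤ (b : ℝ) := Nat.cast_nonneg _
      have w1 : ((b + 1).ascFactorial 4 : ℝ) = ((b : ℝ) + 1) * (b + 2) * (b + 3) * (b + 4) := by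
        simp only [Nat.ascFactorial]
        push_cast
        ring
      rw [w1]
      have w2 : 1 / (a + ((b + 1 : ℕ) : ℝ)) + (-1) * (1 / (a + (b : ℝ))) =
          -(1 / ((a + b) * (a + b + 1))) := by
        have h3 : a + (b : ℝ) ≠ 0 := by positivity
        have h4 : a + (b : ℝ) + 1 ≠ 0 := by positivity
        push_cast
        rw [← add_assoc]
        field_simp
        ring
      rw [w2, neg_sq, div_pow, one_pow, mul_one_div]
      rw [div_le_div_iff₀ (by positivity) (by positivity), one_mul]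
      have w3 : ((b : ℝ) + 1) * (b + 2) ≤ (a + b) * (a + b + 1) := by
        nlinarith
      have w4 : ((b : ℝ) + 3) * (b + 4) ≤ 6 * (((b : ℝ) + 1) * (b + 2)) := by
        nlinarith
      have w5 : 0 ≤ ((b : ℝ) + 1) * (b + 2) := by positivity
      calc ((b : ℝ) + 1) * (b + 2) * (b + 3) * (b + 4)
          = (((b : ℝ) + 1) * (b + 2)) * ((b + 3) * (b + 4)) := by ring
        _ ≤ (((b : ℝ) + 1) * (b + 2)) * (6 * (((b : ℝ) + 1) * (b + 2))) :=
            mul_le_mul_of_nonneg_left w4 w5
        _ = 6 * (((b : ℝ) + 1) * (b + 2)) ^ 2 := by ring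
        _ ≤ 6 * ((a + b) * (a + b + 1)) ^ 2 := by
            have := pow_le_pow_left₀ w5 w3 2
            linarith
    refine le_trans t1 ?_
    rw [← Eb_union hdO' τ (fun A => 6 * (1 / ((A.card + 1).ascFactorial 4 : ℝ))), hOy, Eb_mul]
    have t2 := Eb_asc (P.erase y) h0 h1 4
    have t3 : (P.erase y).card + 1 = m := by
      rw [Finset.card_erase_of_mem hyP, hP']; omega
    rw [t3] at t2
    have hm0 : (0 : ℝ) < (m : ℝ) := by exact_mod_cast hm
    have t4 : ((m : ℝ)) ^ 4 ≤ (m.ascFactorial 4 : ℝ) := by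
      have : (m.ascFactorial 4 : ℝ) = (m : ℝ) * (m + 1) * (m + 2) * (m + 3) := by
        simp only [Nat.ascFactorial]
        push_cast
        ring
      rw [this]
      have q1 : (m : ℝ) * m ≤ (m : ℝ) * (m + 1) := by nlinarith
      have q2 : (m : ℝ) * m ≤ ((m : ℝ) + 2) * (m + 3) := by nlinarith
      have q3 : (0 : ℝ) ≤ (m : ℝ) * m := by positivity
      calc (m : ℝ) ^ 4 = ((m : ℝ) * m) * ((m : ℝ) * m) := by ring
        _ ≤ ((m : ℝ) * (m + 1)) * (((m : ℝ) + 2) * (m + 3)) :=
            mul_le_mul q1 q2 q3 (le_trans q3 q1)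
        _ = (m : ℝ) * (m + 1) * (m + 2) * (m + 3) := by ring
    have t5 : 1 / ((m.ascFactorial 4 : ℝ) * τ ^ 4) ≤ 1 / ((m : ℝ) * τ) ^ 4 := by
      rw [mul_pow]
      apply one_div_le_one_div_of_le (by positivity)
      exact mul_le_mul_of_nonneg_right t4 (by positivity)
    calc 6 * Eb (P.erase y) τ (fun A => 1 / ((A.card + 1).ascFactorial 4 : ℝ))
        ≤ 6 * (1 / ((m : ℝ) * τ) ^ 4) := by linarith
      _ = 6 / ((m : ℝ) * τ) ^ 4 := by ring
  have s6 := Finset.sum_le_sum s5
  rw [Finset.sum_const, nsmul_eq_mul] at s6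
  rw [s4] at s3
  have hm0 : (0 : ℝ) < (m : ℝ) := by exact_mod_cast hm
  have s7 : τ * (1 - τ) * ∑ y ∈ O, Eb (O.erase y) τ (fun B => (F (insert y B) - F B) ^ 2) ≤
      τ * (1 - τ) * ((O.card : ℝ) * (6 / ((m : ℝ) * τ) ^ 4)) :=
    mul_le_mul_of_nonneg_left s6 (mul_nonneg h0.le (by linarith))
  have s8 : τ * (1 - τ) * ((O.card : ℝ) * (6 / ((m : ℝ) * τ) ^ 4)) ≤
      τ * ((O.card : ℝ) * (6 / ((m : ℝ) * τ) ^ 4)) := by
    apply mul_le_mul_of_nonneg_right _ (by positivity)
    nlinarith
  have s9 : τ * ((O.card : ℝ) * (6 / ((m : ℝ) * τ) ^ 4)) =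
      6 * (O.card : ℝ) * τ / ((m : ℝ) * τ) ^ 4 := by ring
  linarith

end E

end Pool.Agent.Helper84.TL
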